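import Pool.Agent.R161.Az.Defs

/-! Recursion for the number of perfect matchings. -/

set_option autoImplicit false

namespace Pool.Agent.R161.Az

open Finset

lemma mat_finite {V : Type} (R : V → V → Prop) (U : Finset V) : (Mat R U).Finite := by
  have hinj : Function.Injective
      (fun f : Mat R U => fun x : U => (⟨f.1 x.1, (f.2.1 x.1 x.2).1⟩ : U)) := by
    intro f g hfg
    apply Subtype.ext
    funext x
    by_cases hx : x ∈ U
    · have := congrFun hfg ⟨x, hx⟩
      exact congrArg Subtype.val this
    · rw [f.2.2 x hx, g.2.2 x hx]
  exact @Set.toFinite _ _ (Finite.of_injective _ hinj)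

lemma mat_empty {V : Type} (R : V → V → Prop) : mc R (∅ : Finset V) = 1 := by
  rw [mc, Set.ncard_eq_one]
  refine ⟨id, ?_⟩
  ext f
  simp only [Mat, Set.mem_ofPred_eq, Set.mem_singleton_iff, notMem_empty, false_imp_iff,
    implies_true, true_and, not_false_eq_true, forall_const]
  constructor
  · intro h
    funext x
    exact h x
  · rintro rfl x
    rfl

lemma fiber_card {V : Type} [DecidableEq V] (R : V → V → Prop) (hs : ∀ x y, R x y → R y x)
    (hi : ∀ x, ¬ R x x) (U : Finset V) (v w : V) (hv : v ∈ U) (hw : w ∈ U) (hR : R v w) :
    {f | f ∈ Mat R U ∧ f v = w}.ncard = mc R ((U.erase v).erase w) := by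
  have hvw : v ≠ w := by
    rintro rfl
    exact hi v hR
  have himg : {f | f ∈ Mat R U ∧ f v = w} =
      (fun g : V → V => Function.update (Function.update g v w) w v) ''
        Mat R ((U.erase v).erase w) := by
    ext f
    constructor
    · rintro ⟨⟨h1, h2⟩, h3⟩
      have h4 : f w = v := by rw [← h3]; exact (h1 v hv).2.2
      refine ⟨Function.update (Function.update f v v) w w, ⟨?_, ?_⟩, ?_⟩
      · intro x hx
        rw [mem_erase, mem_erase] at hx
        obtain ⟨hxw, hxv, hxU⟩ := hx
        obtain ⟨h5, h6, h7⟩ := h1 x hxU
        have h8 : f x ≠ v := by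
          intro h
          rw [h, h3] at h7
          exact hxw h7.symm
        have h9 : f x ≠ w := by
          intro h
          rw [h, h4] at h7
          exact hxv h7.symm
        simp only [Function.update_of_ne hxw, Function.update_of_ne hxv,
          Function.update_of_ne h9, Function.update_of_ne h8, mem_erase]
        exact ⟨⟨h9, h8, h5⟩, h6, h7⟩
      · intro x hx
        by_cases hxw : x = w
        · rw [hxw, Function.update_self]
        · rw [Function.update_of_ne hxw]
          by_cases hxv : x = v
          · rw [hxv, Function.update_self]
          · rw [Function.update_of_ne hxv]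
            apply h2
            intro hxU
            exact hx (by rw [mem_erase, mem_erase]; exact ⟨hxw, hxv, hxU⟩)
      · funext x
        show Function.update (Function.update (Function.update (Function.update f v v) w w) v w)
          w v x = f x
        by_cases hxw : x = w
        · rw [hxw, Function.update_self, h4]
        · simp only [Function.update_of_ne hxw]
          by_cases hxv : x = v
          · rw [hxv, Function.update_self, h3]
          · simp only [Function.update_of_ne hxv, Function.update_of_ne hxw]
    · rintro ⟨g, ⟨h1, h2⟩, rfl⟩
      have hfv : Function.update (Function.update g v w) w v v = w := by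
        rw [Function.update_of_ne hvw, Function.update_self]
      have hfw : Function.update (Function.update g v w) w v w = v := Function.update_self _ _ _
      refine ⟨⟨?_, ?_⟩, hfv⟩
      · intro x hx
        by_cases hxw : x = w
        · subst hxw
          simp only
          rw [hfw, hfv]
          exact ⟨hv, hs _ _ hR, rfl⟩
        · by_cases hxv : x = v
          · subst hxv
            simp only
            rw [hfv, hfw]
            exact ⟨hw, hR, rfl⟩
          · have hxU' : x ∈ (U.erase v).erase w := by
              rw [mem_erase, mem_erase]; exact ⟨hxw, hxv, hx⟩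
            obtain ⟨h5, h6, h7⟩ := h1 x hxU'
            rw [mem_erase, mem_erase] at h5
            obtain ⟨h8, h9, h10⟩ := h5
            simp only [Function.update_of_ne hxw, Function.update_of_ne hxv,
              Function.update_of_ne h8, Function.update_of_ne h9]
            exact ⟨h10, h6, h7⟩
      · intro x hx
        have hxw : x ≠ w := fun h => hx (h ▸ hw)
        have hxv : x ≠ v := fun h => hx (h ▸ hv)
        simp only [Function.update_of_ne hxw, Function.update_of_ne hxv]
        apply h2
        intro h
        exact hx (mem_of_mem_erase (mem_of_mem_erase h))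
  rw [himg, mc]
  apply Set.InjOn.ncard_image
  rintro g ⟨h1, h2⟩ g' ⟨h1', h2'⟩ hgg
  funext x
  by_cases hxw : x = w
  · have e1 : w ∉ (U.erase v).erase w := by simp
    rw [hxw, h2 w e1, h2' w e1]
  · by_cases hxv : x = v
    · have e1 : v ∉ (U.erase v).erase w := by simp
      rw [hxv, h2 v e1, h2' v e1]
    · have := congrFun hgg x
      simpa only [Function.update_of_ne hxw, Function.update_of_ne hxv] using this

theorem s_mc : S_mc := by
  intro V _ R hs hi
  refine ⟨mat_empty R, ?_⟩
  intro U v hv
  refine ⟨mat_finite R U, ?_⟩
  classical
  have hfin := mat_finite R U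
  rw [mc, Set.ncard_eq_toFinset_card _ hfin,
    Finset.card_eq_sum_card_fiberwise (f := fun f => f v) (t := U)]
  · refine Finset.sum_congr rfl fun w hw => ?_
    have hset : ((hfin.toFinset.filter (fun f => f v = w) : Finset (V → V)) : Set (V → V)) =
        {f | f ∈ Mat R U ∧ f v = w} := by
      ext f
      simp
    rw [← Set.ncard_coe_finset, hset]
    split_ifs with hR
    · exact fiber_card R hs hi U v w hv hw hR
    · rw [Set.ncard_eq_zero (hfin.subset fun f hf => hf.1)]
      ext f
      simp only [Set.mem_ofPred_eq, Set.mem_empty_iff_false, iff_false, not_and]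
      intro hf h
      apply hR
      rw [← h]
      exact (hf.1 v hv).2.1
  · intro f hf
    simp only [Set.Finite.coe_toFinset] at hf
    exact (hf.1 v hv).1

end Pool.Agent.R161.Az
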